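import Pool.Agent.W539.DI.Defs

/-!
# Classes of defect at most two: definitions
-/

namespace Pool.Agent.R929.DH

open Pool.Agent.W539.DI

variable {n : ℕ}

/-- The real class `w` of type `(1, 1)` satisfies the hard Lefschetz theorem and the Hodge-Riemann
bilinear relations (as every Kähler class does). -/
structure IsKahler (X : KRing n) (w : X.R) : Prop where
  mem : w ∈ X.H (1, 1)
  real : X.bar w = w
  hl_inj : ∀ (p q : ℤ) (k : ℕ), p + q + k = n → ∀ x ∈ X.H (p, q), w ^ k * x = 0 → x = 0
  hl_surj : ∀ (p q : ℤ) (k : ℕ), p + q + k = n → ∀ y ∈ X.H (p + k, q + k),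
    ∃ x ∈ X.H (p, q), w ^ k * x = y
  hr : ∀ (p q : ℤ) (k : ℕ), p + q + k = n → ∀ x ∈ X.H (p, q), x ≠ 0 → w ^ (k + 1) * x = 0 →
    ∃ r : ℝ, 0 < r ∧ Complex.I ^ (p - q) * (-1 : ℂ) ^ ((p + q) * (p + q - 1) / 2) *
      X.tr (w ^ k * (x * X.bar x)) = (r : ℂ)

/-- The real class `L` of type `(1, 1)` is nef and has the cohomological properties of the pull-back
of an ample class under a morphism whose defect of semismallness is at most two (for example a
morphism with equidimensional fibres of dimension at most two):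

* `nef`: `L + t ω` is a Kähler class for all `t > 0`, where `ω` is the given Kähler class;
* `inj`: the multiplication by `L ^ k` is injective on the classes of degree `n - 2 - k` (for a
  Kähler class it is injective on the classes of degree `n - k`);
* `rel`: the relative Hodge-Riemann bilinear relations for the classes `x` of degree `n - 2 - k`
  with `L ^ (k + 1) x = 0`, the primitive classes of lowest perversity. -/
structure DefectTwo (X : KRing n) (L : X.R) : Prop where
  mem : L ∈ X.H (1, 1)
  real : X.bar L = L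
  nef : ∀ t : ℝ, 0 < t → IsKahler X (L + (t : ℂ) • X.ω)
  inj : ∀ (p q : ℤ) (k : ℕ), p + q + k + 2 = n → ∀ x ∈ X.H (p, q), L ^ k * x = 0 → x = 0
  rel : ∀ (p q : ℤ) (k : ℕ), p + q + k + 2 = n → ∀ x ∈ X.H (p, q), x ≠ 0 → L ^ (k + 1) * x = 0 →
    ∃ r : ℝ, 0 < r ∧ Complex.I ^ (p - q) * (-1 : ℂ) ^ ((p + q) * (p + q - 1) / 2) *
      X.tr (L ^ k * (X.ω ^ 2 * (x * X.bar x))) = (r : ℂ)

/-- The transform is compatible with the multiplications by the classes `u` and `v`. -/
def Intertwines {X Y : KRing n} (Φ : FM X Y) (u : X.R) (v : Y.R) : Prop :=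
  ∀ x, Φ.φ (u * x) = v * Φ.φ x

end Pool.Agent.R929.DH
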