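import Pool.Agent.W539.DI.Lin

/-!
# Semidefinite subspaces for degenerate forms
-/

open Module

namespace Pool.Agent.R929.DH

/-- A real valued function of two variables on a complex vector space which is real bilinear,
symmetric and invariant under multiplication by `i`: the real part of a hermitian form. -/
structure IsHerm {T : Type*} [AddCommGroup T] [Module ℂ T] (β : T → T → ℝ) : Prop where
  add : ∀ x y z, β (x + y) z = β x z + β y z
  smul : ∀ (r : ℝ) x z, β ((r : ℂ) • x) z = r * β x z
  symm : ∀ x y, β x y = β y x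
  inv : ∀ x y, β (Complex.I • x) (Complex.I • y) = β x y

namespace IsHerm

variable {T : Type*} [AddCommGroup T] [Module ℂ T] {β : T → T → ℝ} (h : IsHerm β)

include h

theorem add_right (x y z : T) : β x (y + z) = β x y + β x z := by
  rw [h.symm, h.add, h.symm y, h.symm z]

theorem smul_right (r : ℝ) (x z : T) : β x ((r : ℂ) • z) = r * β x z := by
  rw [h.symm, h.smul, h.symm]

theorem zero_left (x : T) : β 0 x = 0 := by
  have := h.smul 0 0 x
  simpa using this

theorem zero_right (x : T) : β x 0 = 0 := by rw [h.symm, h.zero_left]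

theorem neg_left (x y : T) : β (-x) y = -β x y := by
  have := h.smul (-1) x y
  simpa using this

/-- the real bilinear form -/
noncomputable def toBilin : LinearMap.BilinForm ℝ T :=
  LinearMap.mk₂ ℝ β h.add
    (fun r x z => by
      have := h.smul r x z
      simpa [Complex.coe_smul] using this)
    h.add_right
    (fun r x z => by
      have := h.smul_right r x z
      simpa [Complex.coe_smul] using this)

theorem toBilin_apply (x y : T) : h.toBilin x y = β x y := rfl

theorem I_left (x y : T) : β (Complex.I • x) y = -β x (Complex.I • y) := by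
  have h1 := h.inv (Complex.I • x) y
  rw [smul_smul, Complex.I_mul_I, neg_one_smul, h.neg_left] at h1
  linarith

theorem self_I (x : T) : β x (Complex.I • x) = 0 := by
  have h1 := h.I_left x x
  rw [h.symm] at h1
  linarith

/-- A complex number is a real number plus `i` times a real number. -/
theorem smul_eq (z : ℂ) (x : T) :
    z • x = (z.re : ℂ) • x + (z.im : ℂ) • (Complex.I • x) := by
  conv_lhs => rw [← Complex.re_add_im z]
  rw [add_smul, smul_smul]

theorem smul_self (z : ℂ) (x : T) : β (z • x) (z • x) = Complex.normSq z * β x x := by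
  rw [h.smul_eq z x]
  simp only [h.add, h.add_right, h.smul, h.smul_right]
  rw [h.inv, h.self_I, h.symm (Complex.I • x) x, h.self_I, Complex.normSq_apply]
  ring

/-- The vectors orthogonal to a complex subspace. -/
def perp (M : Submodule ℂ T) : Submodule ℂ T where
  carrier := {x | ∀ y ∈ M, β x y = 0}
  add_mem' := fun {a b} ha hb y hy => by rw [h.add, ha y hy, hb y hy, add_zero]
  zero_mem' := fun y _ => h.zero_left y
  smul_mem' := fun z x hx y hy => by
    rw [h.smul_eq z x, h.add, h.smul, h.smul, hx y hy, h.I_left, hx _ (M.smul_mem _ hy)]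
    ring

theorem mem_perp {M : Submodule ℂ T} {x : T} : x ∈ h.perp M ↔ ∀ y ∈ M, β x y = 0 := Iff.rfl

variable [FiniteDimensional ℂ T]

theorem finrank_two (M : Submodule ℂ T) :
    finrank ℝ (M.restrictScalars ℝ) = 2 * finrank ℂ M := by
  have a : finrank ℝ (M.restrictScalars ℝ) = finrank ℝ M := rfl
  rw [a, finrank_real_of_complex]

/-- The dimension of the orthogonal complement of a subspace. -/
theorem finrank_perp (M K : Submodule ℂ T)
    (hK : ∀ x ∈ M, (∀ y, β x y = 0) → x ∈ K) :
    finrank ℂ M + finrank ℂ (h.perp M) ≤ finrank ℂ T + finrank ℂ K := by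
  have : FiniteDimensional ℝ T := FiniteDimensional.complexToReal T
  have h1 := LinearMap.BilinForm.finrank_add_finrank_orthogonal' (B := h.toBilin)
    (M.restrictScalars ℝ)
  have h2 : h.toBilin.orthogonal (M.restrictScalars ℝ) = (h.perp M).restrictScalars ℝ := by
    ext x
    rw [LinearMap.BilinForm.mem_orthogonal_iff, Submodule.restrictScalars_mem, h.mem_perp]
    constructor
    · intro hx y hy
      rw [h.symm]
      exact hx y hy
    · intro hx y hy
      show h.toBilin y x = 0
      rw [h.toBilin_apply, h.symm]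
      exact hx y hy
  have h3 : (M.restrictScalars ℝ ⊓ LinearMap.ker h.toBilin : Submodule ℝ T) ≤
      K.restrictScalars ℝ := by
    rintro x ⟨hx1, hx2⟩
    refine hK x hx1 fun y => ?_
    rw [← h.toBilin_apply]
    have : h.toBilin x = 0 := hx2
    rw [this]
    rfl
  have h4 := Submodule.finrank_mono h3
  rw [h2, finrank_two h, finrank_two h, finrank_real_of_complex] at h1
  rw [finrank_two h] at h4
  have h5 : finrank ℝ (M.restrictScalars ℝ ⊓ LinearMap.ker h.toBilin : Submodule ℝ T) ≤
    2 * finrank ℂ K := h4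
  omega

/-- A subspace where the form is nonnegative and a subspace where it is nonpositive have
dimensions of sum at most the dimension, up to the radical. -/
theorem semi (W₁ W₂ K : Submodule ℂ T) (h₁ : ∀ x ∈ W₁, 0 ≤ β x x) (h₂ : ∀ x ∈ W₂, β x x ≤ 0)
    (hK : ∀ x ∈ W₂, (∀ y, β x y = 0) → x ∈ K) :
    finrank ℂ W₁ + finrank ℂ W₂ ≤ finrank ℂ T + finrank ℂ K := by
  have key : ∀ (W : Submodule ℂ T) (s : ℝ), (∀ x ∈ W, 0 ≤ s * β x x) → s ≠ 0 →
      ∀ z ∈ W, β z z = 0 → ∀ w ∈ W, β z w = 0 := by
    intro W s hW hs0 z hz hzz w hw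
    by_contra hne
    have hval : ∀ t : ℝ, 0 ≤ s * (β w w + 2 * t * β z w) := by
      intro t
      have := hW (w + (t : ℂ) • z) (W.add_mem hw (W.smul_mem _ hz))
      have e : β (w + (t : ℂ) • z) (w + (t : ℂ) • z) = β w w + 2 * t * β z w := by
        simp only [h.add, h.add_right, h.smul, h.smul_right, hzz, h.symm w z]
        ring
      rw [e] at this
      exact this
    have hsb : s * β z w ≠ 0 := mul_ne_zero hs0 hne
    have := hval (-(s * β w w + 1) / (2 * (s * β z w)))
    have e2 : s * (β w w + 2 * (-(s * β w w + 1) / (2 * (s * β z w))) * β z w) = -1 := by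
      field_simp
      ring
    rw [e2] at this
    linarith
  have hZ : ∀ z ∈ W₁ ⊓ W₂, β z z = 0 := fun z hz =>
    le_antisymm (h₂ z hz.2) (h₁ z hz.1)
  have hle : W₁ ⊔ W₂ ≤ h.perp (W₁ ⊓ W₂) := by
    refine sup_le ?_ ?_
    · intro w hw z hz
      rw [h.symm]
      exact key W₁ 1 (by simpa using h₁) one_ne_zero z hz.1 (hZ z hz) w hw
    · intro w hw z hz
      rw [h.symm]
      refine key W₂ (-1) (fun x hx => ?_) (by norm_num) z hz.2 (hZ z hz) w hw
      have := h₂ x hx
      linarith
  have h3 := Submodule.finrank_mono hle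
  have h4 := h.finrank_perp (W₁ ⊓ W₂) K (fun x hx => hK x hx.2)
  have h5 := Submodule.finrank_sup_add_finrank_inf_eq W₁ W₂
  omega

omit [FiniteDimensional ℂ T] in
/-- Adding a negative vector to a negative definite subspace. -/
theorem neg_insert {M : Submodule ℂ T} (hM : ∀ x ∈ M, x ≠ 0 → β x x < 0) {v : T}
    (hv : v ∈ h.perp M) (hvv : β v v < 0) : ∀ x ∈ M ⊔ Submodule.span ℂ {v}, x ≠ 0 → β x x < 0 := by
  intro x hx hx0
  rw [Submodule.mem_sup] at hx
  obtain ⟨m, hm, w, hw, rfl⟩ := hx
  rw [Submodule.mem_span_singleton] at hw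
  obtain ⟨z, rfl⟩ := hw
  have h1 : β m (z • v) = 0 := by
    rw [h.symm]
    exact (h.perp M).smul_mem z hv m hm
  have e : β (m + z • v) (m + z • v) = β m m + Complex.normSq z * β v v := by
    rw [h.add, h.add_right, h.add_right, h1, h.symm (z • v) m, h1, h.smul_self]
    ring
  rw [e]
  by_cases hz : z = 0
  · have hm0 : m ≠ 0 := by
      rintro rfl
      apply hx0
      rw [hz]
      simp
    have := hM m hm hm0
    rw [hz]
    simpa using this
  · have h2 : Complex.normSq z * β v v < 0 :=
      mul_neg_of_pos_of_neg (Complex.normSq_pos.mpr hz) hvv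
    have h3 : β m m ≤ 0 := by
      by_cases hm0 : m = 0
      · rw [hm0, h.zero_left]
      · exact (hM m hm hm0).le
    linarith

/-- A maximal negative definite subspace and its complement. -/
theorem exists_max : ∃ M M' : Submodule ℂ T, (∀ x ∈ M, x ≠ 0 → β x x < 0) ∧
    (∀ x ∈ M', 0 ≤ β x x) ∧ finrank ℂ M + finrank ℂ M' = finrank ℂ T ∧
    (∀ x, (∀ y, β x y = 0) → x ∈ M') := by
  classical
  let P : ℕ → Prop := fun d => ∃ M : Submodule ℂ T, finrank ℂ M = d ∧
    ∀ x ∈ M, x ≠ 0 → β x x < 0
  have hP0 : P 0 := ⟨⊥, by simp, fun x hx h0 => absurd ((Submodule.mem_bot ℂ).mp hx) h0⟩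
  have hPb : ∀ d, P d → d ≤ finrank ℂ T := by
    rintro d ⟨M, rfl, -⟩
    exact Submodule.finrank_le M
  set d := Nat.findGreatest P (finrank ℂ T) with hd
  have hPd : P d := Nat.findGreatest_spec (P := P) (Nat.zero_le _) hP0
  obtain ⟨M, hMd, hM⟩ := hPd
  have hdis : M ⊓ h.perp M = ⊥ := by
    rw [eq_bot_iff]
    rintro x ⟨hx1, hx2⟩
    rw [Submodule.mem_bot]
    by_contra hx0
    have h1 := hM x hx1 hx0
    rw [hx2 x hx1] at h1
    exact lt_irrefl _ h1
  refine ⟨M, h.perp M, hM, ?_, ?_, fun x hx y _ => hx y⟩
  · intro v hv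
    by_contra hlt
    push Not at hlt
    have hneg := h.neg_insert hM hv hlt
    have hv0 : v ∉ M := by
      intro hvM
      have : v ∈ M ⊓ h.perp M := ⟨hvM, hv⟩
      rw [hdis, Submodule.mem_bot] at this
      rw [this, h.zero_left] at hlt
      exact lt_irrefl _ hlt
    have hlt2 : M < M ⊔ Submodule.span ℂ {v} := by
      refine lt_of_le_of_ne le_sup_left fun heq => hv0 ?_
      rw [heq]
      exact Submodule.mem_sup_right (Submodule.mem_span_singleton_self v)
    have h1 := Submodule.finrank_lt_finrank_of_lt hlt2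
    have h2 : P (finrank ℂ (M ⊔ Submodule.span ℂ {v} : Submodule ℂ T)) := ⟨_, rfl, hneg⟩
    have h3 := Nat.le_findGreatest (P := P) (hPb _ h2) h2
    omega
  · apply le_antisymm
    · have h1 := Submodule.finrank_sup_add_finrank_inf_eq M (h.perp M)
      rw [hdis, finrank_bot, add_zero] at h1
      rw [← h1]
      exact Submodule.finrank_le _
    · have : FiniteDimensional ℝ T := FiniteDimensional.complexToReal T
      have h1 := LinearMap.BilinForm.finrank_add_finrank_orthogonal' (B := h.toBilin)
        (M.restrictScalars ℝ)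
      have h2 : h.toBilin.orthogonal (M.restrictScalars ℝ) ≤ (h.perp M).restrictScalars ℝ := by
        intro x hx
        rw [LinearMap.BilinForm.mem_orthogonal_iff] at hx
        intro y hy
        rw [h.symm]
        exact hx y hy
      have h3 := Submodule.finrank_mono h2
      rw [finrank_two h, finrank_real_of_complex] at h1
      rw [finrank_two h] at h3
      omega

end IsHerm

end Pool.Agent.R929.DH
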