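import Pool.Agent.W539.DI.HR
import Pool.Agent.R929.DH.Lin
import Pool.Agent.R929.DH.Defs

/-!
# The hermitian forms of a class of type (1, 1)
-/

open scoped ComplexConjugate
open Module

namespace Pool.Agent.R929.DH

open Pool.Agent.W539.DI

variable {n : ℕ} (X : KRing n)

/-- The form `∫ x^∨ w^k bar y`. -/
noncomputable def hf (w : X.R) (k : ℕ) (x y : X.R) : ℂ := X.tr (X.dual x * (w ^ k * X.bar y))

/-- Its real part, symmetrised. -/
noncomputable def bf (w : X.R) (k : ℕ) (x y : X.R) : ℝ := (hf X w k x y).re + (hf X w k y x).re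

variable {X}
variable {w : X.R} {k : ℕ}

theorem hf_add_left (x y z : X.R) : hf X w k (x + y) z = hf X w k x z + hf X w k y z := by
  unfold hf
  rw [map_add, add_mul, map_add]

theorem hf_add_right (x y z : X.R) : hf X w k x (y + z) = hf X w k x y + hf X w k x z := by
  unfold hf
  rw [map_add, mul_add, mul_add, map_add]

theorem hf_smul_left (a : ℂ) (x z : X.R) : hf X w k (a • x) z = a * hf X w k x z := by
  unfold hf
  rw [map_smul, smul_mul_assoc, map_smul, smul_eq_mul]

theorem hf_smul_right (a : ℂ) (x z : X.R) : hf X w k x (a • z) = conj a * hf X w k x z := by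
  unfold hf
  rw [LinearMap.map_smulₛₗ, mul_smul_comm, mul_smul_comm, map_smul, smul_eq_mul]

theorem isHerm (e : ℝ) : IsHerm (fun x y : X.R => e * bf X w k x y) where
  add x y z := by
    simp only [bf, hf_add_left, hf_add_right, Complex.add_re]
    ring
  smul r x z := by
    simp only [bf, hf_smul_left, hf_smul_right, Complex.conj_ofReal, Complex.re_ofReal_mul]
    ring
  symm x y := by
    simp only [bf]
    ring
  inv x y := by
    have h1 : ∀ x y : X.R, hf X w k (Complex.I • x) (Complex.I • y) = hf X w k x y := by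
      intro x y
      rw [hf_smul_left, hf_smul_right, ← mul_assoc, Complex.conj_I, mul_neg, Complex.I_mul_I]
      ring
    simp only [bf, h1]

theorem pow_central {w : X.R} (hw : w ∈ X.H (1, 1)) (k : ℕ) (x : X.R) : w ^ k * x = x * w ^ k := by
  induction k with
  | zero => simp
  | succ k ih => rw [pow_succ, mul_assoc, X.central hw, ← mul_assoc, ih, mul_assoc]

theorem bar_pow {w : X.R} (hw : X.bar w = w) (k : ℕ) (x : X.R) :
    X.bar (w ^ k * x) = w ^ k * X.bar x := by
  induction k with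
  | zero => simp
  | succ k ih =>
    rw [pow_succ', mul_assoc, X.bar_mul, hw, ih, mul_assoc]

theorem dual_mul {w : X.R} (hw : w ∈ X.H (1, 1)) (x : X.R) :
    X.dual (w * x) = -(w * X.dual x) := by
  refine X.ind (P := fun x => X.dual (w * x) = -(w * X.dual x)) ?_ ?_ ?_ x
  · simp
  · intro x y hx hy
    rw [mul_add, map_add, hx, hy, map_add, mul_add]
    abel
  · intro p q x hx
    rw [X.dual_of (X.mul_mem hw hx), X.dual_of hx]
    have e : Complex.I ^ ((1 : ℤ) + p + (1 + q)) = -(Complex.I ^ (p + q)) := by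
      rw [show (1 : ℤ) + p + (1 + q) = 2 + (p + q) by ring, zpow_add₀ Complex.I_ne_zero,
        show (2 : ℤ) = ((2 : ℕ) : ℤ) from rfl, zpow_natCast, Complex.I_sq]
      ring
    rw [e, mul_smul_comm, neg_smul]

theorem hf_mul_left {v : X.R} (hv : v ∈ X.H (1, 1)) (x y : X.R) :
    hf X w k (v * x) y = -X.tr (X.dual x * (v * (w ^ k * X.bar y))) := by
  unfold hf
  rw [dual_mul hv, X.central hv (X.dual x), neg_mul, map_neg, mul_assoc]

theorem hf_mul_right {v : X.R} (hv : v ∈ X.H (1, 1)) (hb : X.bar v = v) (x y : X.R) :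
    hf X w k x (v * y) = X.tr (X.dual x * (v * (w ^ k * X.bar y))) := by
  unfold hf
  rw [X.bar_mul, hb]
  congr 2
  rw [← mul_assoc, ← X.central hv, mul_assoc]

theorem hf_succ_left (hw : w ∈ X.H (1, 1)) (x y : X.R) :
    hf X w k (w * x) y = -hf X w (k + 1) x y := by
  rw [hf_mul_left hw]
  unfold hf
  rw [pow_succ', mul_assoc w]

theorem hf_succ_right (hw : w ∈ X.H (1, 1)) (hb : X.bar w = w) (x y : X.R) :
    hf X w k x (w * y) = hf X w (k + 1) x y := by
  rw [hf_mul_right hw hb]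
  unfold hf
  rw [pow_succ', mul_assoc w]

theorem bf_succ (hw : w ∈ X.H (1, 1)) (hb : X.bar w = w) (x y : X.R) :
    bf X w k (w * x) (w * y) = -bf X w (k + 2) x y := by
  unfold bf
  rw [hf_succ_left hw, hf_succ_left hw, hf_succ_right hw hb, hf_succ_right hw hb]
  simp only [Complex.neg_re]
  ring

theorem hf_hom (hw : w ∈ X.H (1, 1)) {p q : ℤ} {x : X.R} (hx : x ∈ X.H (p, q)) (y : X.R) :
    hf X w k x y = Complex.I ^ (p + q) * X.tr (w ^ k * (x * X.bar y)) := by
  unfold hf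
  rw [X.dual_of hx, smul_mul_assoc, map_smul, smul_eq_mul]
  congr 2
  rw [← mul_assoc, ← pow_central hw, mul_assoc]

theorem hf_zero (hw : w ∈ X.H (1, 1)) {p q p' q' : ℤ} {x y : X.R} (hx : x ∈ X.H (p, q))
    (hy : y ∈ X.H (p', q')) (h : p + q' + k ≠ n) : hf X w k x y = 0 := by
  rw [hf_hom hw hx, X.tr_van (p + q' + k) (q + p' + k) _
    (X.pow_mul_mem hw k (X.mul_mem hx (X.bar_mem _ _ _ hy))) (fun h1 => h h1.1), mul_zero]

/-- Hermitian symmetry. -/
theorem hf_conj (hw : w ∈ X.H (1, 1)) (hb : X.bar w = w) {a b m : ℤ} {x y : X.R}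
    (hx : x ∈ X.H (a + m, b + m)) (hy : y ∈ X.H (a - m, b - m)) :
    hf X w k y x = conj (hf X w k x y) := by
  have hbx := X.bar_mem _ _ _ hx
  have hby := X.bar_mem _ _ _ hy
  have e0 : X.bar (w ^ k * (x * X.bar y)) = w ^ k * (X.bar x * y) := by
    rw [bar_pow hb, X.bar_mul, X.bar_bar]
  rw [hf_hom hw hy, hf_hom hw hx, RingHom.map_mul (starRingEnd ℂ), ← X.tr_bar, e0,
    X.comm _ _ _ _ _ _ hbx hy, mul_smul_comm, LinearMap.map_smul, smul_eq_mul, I_zpow_conj]
  have e1 : (a - m + (b - m) : ℤ) = (a + b) + (-2 * m) := by ring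
  have e2 : (a + m + (b + m) : ℤ) = (a + b) + 2 * m := by ring
  have e3 : (b + m + (a + m) : ℤ) = (a + b) + 2 * m := by ring
  rw [e1, e2, e3]
  obtain ⟨s, hs⟩ : ∃ s, a + b = s := ⟨_, rfl⟩
  rw [hs]
  have hI : Complex.I ^ (s + 2 * m) = Complex.I ^ (s + (-2 * m)) := by
    rw [zpow_add₀ Complex.I_ne_zero, zpow_add₀ Complex.I_ne_zero]
    congr 1
    rw [zpow_mul, zpow_mul]
    have h2 : (Complex.I : ℂ) ^ (2 : ℤ) = -1 := by
      rw [show (2 : ℤ) = ((2 : ℕ) : ℤ) from rfl, zpow_natCast, Complex.I_sq]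
    have h3 : (Complex.I : ℂ) ^ (-2 : ℤ) = -1 := by
      rw [zpow_neg, h2]; norm_num
    rw [h2, h3]
  rw [hI]
  have s1 : (-1 : ℂ) ^ ((s + 2 * m) * (s + (-2 * m))) = (-1 : ℂ) ^ (s + 2 * m) := by
    have : Even (((s + 2 * m) * (s + (-2 * m))) - (s + 2 * m)) := by
      have : ((s + 2 * m) * (s + (-2 * m))) - (s + 2 * m)
          = s * (s - 1) - 2 * (2 * m * m + m) := by ring
      rw [this]
      refine Even.sub (Int.even_mul_pred_self _) ⟨2 * m * m + m, by ring⟩
    have h4 : (-1 : ℂ) ^ (((s + 2 * m) * (s + (-2 * m))) - (s + 2 * m)) = 1 :=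
      Even.neg_one_zpow this
    rw [zpow_sub₀ (by norm_num)] at h4
    have h5 : (-1 : ℂ) ^ (s + 2 * m) ≠ 0 := zpow_ne_zero _ (by norm_num)
    field_simp at h4
    exact h4
  have s2 : (-1 : ℂ) ^ (s + 2 * m) * (-1 : ℂ) ^ (s + 2 * m) = 1 := by
    rw [← mul_zpow]; norm_num
  rw [s1]
  linear_combination (-(Complex.I ^ (s + (-2 * m)) * X.tr (w ^ k * (y * X.bar x)))) * s2

end Pool.Agent.R929.DH
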