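import Pool.Agent.R929.DH.Iso

/-!
# The basic inequality
-/

open scoped ComplexConjugate Topology
open Module

namespace Pool.Agent.R929.DH

open Pool.Agent.W539.DI

variable {n : ℕ} {X : KRing n} {L : X.R}

/-- Induction for sums of graded pieces. -/
theorem F_ind {a b : ℤ} {s : Finset ℤ} {K : Submodule ℂ X.R}
    (h : ∀ k ∈ s, ∀ x ∈ X.H (a + k, b + k), x ∈ K) : X.F a b s ≤ K :=
  iSup₂_le fun k hk x hx => h k hk x hx

theorem hf_F_zero (hm : L ∈ X.H (1, 1)) {a b : ℤ} {κ : ℕ} (hab : a + b + κ = n) (s t : Finset ℤ)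
    (hst : ∀ k ∈ s, ∀ l ∈ t, k + l ≠ 0) {x y : X.R} (hx : x ∈ X.F a b s) (hy : y ∈ X.F a b t) :
    hf X L κ x y = 0 := by
  let K : Submodule ℂ X.R :=
    { carrier := {x | hf X L κ x y = 0}
      add_mem' := fun {u v} hu hv => by
        simp only [Set.mem_ofPred_eq] at *
        rw [hf_add_left, hu, hv, add_zero]
      zero_mem' := by
        have := hf_smul_left (X := X) (w := L) (k := κ) 0 0 y
        simpa using this
      smul_mem' := fun c u hu => by
        simp only [Set.mem_ofPred_eq] at *
        rw [hf_smul_left, hu, mul_zero] }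
  suffices h : X.F a b s ≤ K from h hx
  refine F_ind fun k hk x hx => ?_
  show hf X L κ x y = 0
  let K' : Submodule ℂ X.R :=
    { carrier := {y | hf X L κ x y = 0}
      add_mem' := fun {u v} hu hv => by
        simp only [Set.mem_ofPred_eq] at *
        rw [hf_add_right, hu, hv, add_zero]
      zero_mem' := by
        have := hf_smul_right (X := X) (w := L) (k := κ) 0 x 0
        simpa using this
      smul_mem' := fun c u hu => by
        simp only [Set.mem_ofPred_eq] at *
        rw [hf_smul_right, hu, mul_zero] }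
  suffices h : X.F a b t ≤ K' from h hy
  refine F_ind fun l hl y hy => ?_
  exact hf_zero hm hx hy (by have := hst k hk l hl; omega)

theorem hf_F_conj (hm : L ∈ X.H (1, 1)) (hb : X.bar L = L) {a b : ℤ} {κ : ℕ}
    (hab : a + b + κ = n) (s t : Finset ℤ) {x y : X.R} (hx : x ∈ X.F a b s)
    (hy : y ∈ X.F a b t) : hf X L κ y x = conj (hf X L κ x y) := by
  let K : Submodule ℂ X.R :=
    { carrier := {x | hf X L κ y x = conj (hf X L κ x y)}
      add_mem' := fun {u v} hu hv => by
        simp only [Set.mem_ofPred_eq] at *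
        rw [hf_add_left, hf_add_right, hu, hv, map_add]
      zero_mem' := by
        have h1 := hf_smul_left (X := X) (w := L) (k := κ) 0 0 y
        have h2 := hf_smul_right (X := X) (w := L) (k := κ) 0 y 0
        rw [zero_smul, zero_mul] at h1
        rw [zero_smul, map_zero, zero_mul] at h2
        simp only [Set.mem_ofPred_eq]
        rw [h1, h2, map_zero]
      smul_mem' := fun c u hu => by
        simp only [Set.mem_ofPred_eq] at *
        rw [hf_smul_left, hf_smul_right, hu, map_mul] }
  suffices h : X.F a b s ≤ K from h hx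
  refine F_ind fun k hk x hx => ?_
  show hf X L κ y x = conj (hf X L κ x y)
  let K' : Submodule ℂ X.R :=
    { carrier := {y | hf X L κ y x = conj (hf X L κ x y)}
      add_mem' := fun {u v} hu hv => by
        simp only [Set.mem_ofPred_eq] at *
        rw [hf_add_left, hf_add_right, hu, hv, map_add]
      zero_mem' := by
        have h1 := hf_smul_left (X := X) (w := L) (k := κ) 0 0 x
        have h2 := hf_smul_right (X := X) (w := L) (k := κ) 0 x 0
        rw [zero_smul, zero_mul] at h1
        rw [zero_smul, map_zero, zero_mul] at h2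
        simp only [Set.mem_ofPred_eq]
        rw [h1, h2, map_zero]
      smul_mem' := fun c u hu => by
        simp only [Set.mem_ofPred_eq] at *
        rw [hf_smul_left, hf_smul_right, hu, map_mul, Complex.conj_conj] }
  suffices h : X.F a b t ≤ K' from h hy
  refine F_ind fun l hl y hy => ?_
  show hf X L κ y x = conj (hf X L κ x y)
  by_cases hkl : l = -k
  · subst hkl
    exact hf_conj hm hb hx (by simpa [sub_eq_add_neg] using hy)
  · rw [hf_zero hm hx hy (by omega), hf_zero hm hy hx (by omega), map_zero]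

theorem bar_F {a b : ℤ} {s : Finset ℤ} {z : X.R} (hz : z ∈ X.F b a s) : X.bar z ∈ X.F a b s := by
  have h : X.F b a s ≤ (X.F a b s).comap X.bar := by
    refine F_ind fun k hk x hx => ?_
    exact X.mem_F hk (X.bar_mem _ _ _ hx)
  exact h hz

/-- The sum of the Hodge numbers over `s`. -/
noncomputable def hs (X : KRing n) (a b : ℤ) (s : Finset ℤ) : ℕ := ∑ k ∈ s, X.h (a + k) (b + k)

/-- The vectors in the upper part which are orthogonal to the lower part. -/
theorem exists_ker (hL : DefectTwo X L) {a b : ℤ} {κ : ℕ} (hab : a + b + κ = n) (N : ℕ) :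
    ∃ K : Submodule ℂ X.R, finrank ℂ K + hs X a b (sm N) = hs X a b (sp N) ∧
      ∀ x ∈ X.F a b (sp N), (∀ y ∈ X.F a b (sm N), hf X L κ x y = 0) → x ∈ K := by
  let V := X.F a b (sp N)
  let Z := X.F b a (sm N)
  let Θ : Z →ₗ[ℂ] Module.Dual ℂ V :=
    LinearMap.mk₂ ℂ (fun (z : Z) (x : V) => X.tr (X.dual (x : X.R) * (L ^ κ * (z : X.R))))
      (fun z z' x => by
        simp only [Submodule.coe_add, mul_add, map_add])
      (fun c z x => by
        simp only [Submodule.coe_smul, mul_smul_comm, map_smul])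
      (fun z x x' => by
        simp only [Submodule.coe_add, add_mul, map_add])
      (fun c z x => by
        simp only [Submodule.coe_smul, smul_mul_assoc, map_smul])
  have hΘ : ∀ z x, Θ z x = X.tr (X.dual (x : X.R) * (L ^ κ * (z : X.R))) := fun z x => rfl
  have hinj : Function.Injective Θ := by
    rw [injective_iff_map_eq_zero]
    intro z hz
    have hz' : ∀ x ∈ V, X.tr (X.dual x * (L ^ κ * (z : X.R))) = 0 := by
      intro x hx
      have := congrArg (fun f => f ⟨x, hx⟩) hz
      exact this
    have hzZ : (z : X.R) ∈ ⨆ k ∈ sm N, X.H (b + k, a + k) := z.2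
    rw [Submodule.mem_iSup_finset_iff_exists_sum] at hzZ
    obtain ⟨μ, hμ⟩ := hzZ
    have hall : ∀ k0 ∈ sm N, ((μ k0 : X.H (b + k0, a + k0)) : X.R) = 0 := by
      intro k0 hk0
      have hneg : -k0 ∈ sp N := by
        rw [mem_sm] at hk0
        rw [mem_sp]
        omega
      have hk0' := mem_sm.1 hk0
      have h1 : ∀ x ∈ X.H (a - k0, b - k0),
          X.tr (X.dual x * (L ^ κ * (μ k0 : X.R))) = 0 := by
        intro x hx
        have hxV : x ∈ V := by
          refine X.mem_F hneg ?_
          simpa [sub_eq_add_neg] using hx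
        have h2 := hz' x hxV
        rw [← hμ, Finset.mul_sum, Finset.mul_sum, map_sum, Finset.sum_eq_single k0] at h2
        · exact h2
        · intro k hk hne
          rw [X.dual_of hx, smul_mul_assoc, map_smul]
          have h3 := X.mul_mem hx (X.pow_mul_mem hL.mem κ (μ k).2)
          rw [X.tr_van _ _ _ h3 (fun h => hne (by omega)), smul_zero]
        · intro h
          exact absurd hk0 h
      have hmem := X.pow_mul_mem hL.mem κ (μ k0).2
      have h2 : L ^ κ * (μ k0 : X.R) = 0 := by
        refine X.pd _ _ _ hmem fun y hy => ?_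
        have e : ((n - (b + k0 + κ), n - (a + k0 + κ)) : ℤ × ℤ) = (a - k0, b - k0) := by
          ext <;> simp <;> omega
        rw [e] at hy
        have h3 := h1 y hy
        rw [X.dual_of hy, smul_mul_assoc, map_smul, smul_eq_mul] at h3
        have h4 := (mul_eq_zero.mp h3).resolve_left (zpow_ne_zero _ Complex.I_ne_zero)
        rw [X.comm _ _ _ _ _ _ hmem hy, map_smul, h4, smul_zero]
      obtain ⟨j, hj⟩ := Int.eq_ofNat_of_zero_le (show 0 ≤ -2 * k0 - 2 by omega)
      refine hL.inj (b + k0) (a + k0) (j + κ) (by push_cast; omega) _ (μ k0).2 ?_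
      rw [pow_add, mul_assoc, h2, mul_zero]
    have hz0 : (z : X.R) = 0 := by
      rw [← hμ]
      exact Finset.sum_eq_zero hall
    exact Subtype.ext hz0
  have h1 := Subspace.finrank_add_finrank_dualCoannihilator_eq (LinearMap.range Θ)
  rw [LinearMap.finrank_range_of_inj hinj] at h1
  refine ⟨(LinearMap.range Θ).dualCoannihilator.map V.subtype, ?_, ?_⟩
  · rw [Submodule.finrank_map_subtype_eq]
    have h2 : finrank ℂ Z = hs X a b (sm N) := by
      show finrank ℂ (X.F b a (sm N)) = _
      rw [X.finrank_F]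
      unfold hs
      refine Finset.sum_congr rfl fun k _ => ?_
      rw [X.h_swap]
    have h3 : finrank ℂ V = hs X a b (sp N) := X.finrank_F a b (sp N)
    rw [h2, h3] at h1
    omega
  · intro x hx h
    refine ⟨⟨x, hx⟩, ?_, rfl⟩
    rw [SetLike.mem_coe, Submodule.mem_dualCoannihilator]
    rintro _ ⟨z, rfl⟩
    rw [hΘ]
    have h2 := h (X.bar z) (bar_F z.2)
    unfold hf at h2
    rw [X.bar_bar] at h2
    exact h2

theorem F_le (a b : ℤ) (s : Finset ℤ) : X.F a b s ≤ ⨆ k : ℤ, X.H (a + k, b + k) :=
  iSup₂_le fun k _ => le_iSup (fun k : ℤ => X.H (a + k, b + k)) k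

theorem H_le (a b : ℤ) : X.H (a, b) ≤ ⨆ k : ℤ, X.H (a + k, b + k) := by
  have := le_iSup (fun k : ℤ => X.H (a + k, b + k)) 0
  simpa using this

theorem disj_F {a b : ℤ} {M : Submodule ℂ X.R} (hM : M ≤ X.H (a, b)) (N : ℕ) :
    X.F a b (sp N) ⊓ M = ⊥ := by
  have hd : Disjoint (X.H (a, b)) (X.F a b (sp N)) := by
    have := (X.indep a b).disjoint_biSup (x := 0) (y := (sp N : Set ℤ))
      (by
        intro h
        rw [Finset.mem_coe, mem_sp] at h
        omega)
    simp only [add_zero] at this
    exact this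
  exact (hd.mono_left hM).symm.eq_bot

theorem finrank_sup' {a b : ℤ} {M : Submodule ℂ X.R} (hM : M ≤ X.H (a, b)) (N : ℕ) :
    finrank ℂ (X.F a b (sp N) ⊔ M : Submodule ℂ X.R) = hs X a b (sp N) + finrank ℂ M := by
  have h1 := Submodule.finrank_sup_add_finrank_inf_eq (X.F a b (sp N)) M
  rw [disj_F hM, finrank_bot, add_zero, X.finrank_F] at h1
  exact h1

/-- The form on the upper part and a subspace of the middle piece. -/
theorem bf_sup (hm : L ∈ X.H (1, 1)) {a b : ℤ} {κ : ℕ} (hab : a + b + κ = n) (N : ℕ)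
    {f m : X.R} (hf1 : f ∈ X.F a b (sp N)) (hmm : m ∈ X.H (a, b)) :
    bf X L κ (f + m) (f + m) = bf X L κ m m ∧ bf X L κ (f + m) m = bf X L κ m m ∧
      ∀ y, y ∈ X.F a b (sm N) → bf X L κ (f + m) y = bf X L κ f y := by
  have hmF : m ∈ X.F a b {0} := by
    refine X.mem_F (Finset.mem_singleton_self _) ?_
    rw [add_zero, add_zero]
    exact hmm
  have h1 : hf X L κ f f = 0 := hf_F_zero hm hab _ _ (fun k hk l hl => by
    rw [mem_sp] at hk hl; omega) hf1 hf1
  have h2 : hf X L κ f m = 0 := hf_F_zero hm hab _ _ (fun k hk l hl => by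
    rw [mem_sp] at hk; rw [Finset.mem_singleton] at hl; omega) hf1 hmF
  have h3 : hf X L κ m f = 0 := hf_F_zero hm hab _ _ (fun k hk l hl => by
    rw [mem_sp] at hl; rw [Finset.mem_singleton] at hk; omega) hmF hf1
  refine ⟨?_, ?_, fun y hy => ?_⟩
  · unfold bf
    simp only [hf_add_left, hf_add_right, h1, h2, h3, zero_add, add_zero]
  · unfold bf
    simp only [hf_add_left, hf_add_right, h2, h3, zero_add]
  · have h4 : hf X L κ m y = 0 := hf_F_zero hm hab _ _ (fun k hk l hl => by
      rw [mem_sm] at hl; rw [Finset.mem_singleton] at hk; omega) hmF hy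
    have h5 : hf X L κ y m = 0 := hf_F_zero hm hab _ _ (fun k hk l hl => by
      rw [mem_sm] at hk; rw [Finset.mem_singleton] at hl; omega) hy hmF
    unfold bf
    simp only [hf_add_left, hf_add_right, h4, h5, add_zero]

variable {Y : KRing n} {Φ : FM X Y} {L' : Y.R}

/-- **The basic inequality.** -/
theorem basic (hX : DefectTwo X L) (hY : DefectTwo Y L') (hc : Intertwines Φ X.c Y.c)
    (hΦ : Intertwines Φ L L') {a b : ℤ} {κ : ℕ} (hab : a + b + κ = n) (ha : 0 ≤ a) (hb : 0 ≤ b)
    {r : ℕ} (hr : a < r) :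
    (hs X a b (sp n) : ℤ) + X.A r a b ≤ hs Y a b (sp n) + Y.A r a b := by
  classical
  obtain ⟨-, M', -, hM', -, pos, -, hA, -⟩ := neg_dim hX r a b κ hab hr
  obtain ⟨N, N', hN, hN', neg, -, hsum, hA', -⟩ := neg_dim hY r a b κ hab hr
  obtain ⟨K, hK, hK2⟩ := exists_ker hY hab n
  have hH := isHerm (X := Y) (w := L') (k := κ) (sg a b)
  have hI := hH.inv
  have h1 := semi_sub hH (⨆ k : ℤ, Y.H (a + k, b + k))
    (Submodule.map (Φ.φ : X.R →ₗ[ℂ] Y.R) (X.F a b (sp n) ⊔ M')) (Y.F a b (sp n) ⊔ N) K
    (by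
      rw [← Φ.hodge a b]
      exact Submodule.map_mono (sup_le (F_le a b _) (hM'.trans (H_le a b))))
    (sup_le (F_le a b _) (hN.trans (H_le a b)))
    (by
      rintro _ ⟨x, hx, rfl⟩
      obtain ⟨f, hf1, m, hm, rfl⟩ := Submodule.mem_sup.1 hx
      show 0 ≤ sg a b * bf Y L' κ (Φ.φ (f + m)) (Φ.φ (f + m))
      rw [bf_iso hc hΦ, (bf_sup hX.mem hab n hf1 (hM' hm)).1]
      exact pos m hm)
    (by
      intro x hx
      obtain ⟨f, hf1, m, hm, rfl⟩ := Submodule.mem_sup.1 hx
      rw [(bf_sup hY.mem hab n hf1 (hN hm)).1]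
      by_cases hm0 : m = 0
      · rw [hm0]
        exact le_of_eq (hH.zero_left 0)
      · exact (neg m hm hm0).le)
    (by
      intro x hx hxy
      obtain ⟨f, hf1, m, hm, rfl⟩ := Submodule.mem_sup.1 hx
      have hm0 : m = 0 := by
        by_contra hm0
        have h2 := hxy m (H_le a b (hN hm))
        rw [(bf_sup hY.mem hab n hf1 (hN hm)).2.1] at h2
        have h3 := neg m hm hm0
        linarith
      rw [hm0, add_zero]
      have h4 : ∀ y ∈ Y.F a b (sm n), (hf Y L' κ f y).re = 0 := by
        intro y hy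
        have h2 := hxy y (F_le a b _ hy)
        rw [(bf_sup hY.mem hab n hf1 (hN hm)).2.2 y hy] at h2
        have h3 := (mul_eq_zero.mp h2).resolve_left (sg_ne a b)
        unfold bf at h3
        rw [hf_F_conj hY.mem hY.real hab _ _ hf1 hy, Complex.conj_re] at h3
        linarith
      refine hK2 f hf1 fun y hy => ?_
      have h5 := h4 (Complex.I • y) (Submodule.smul_mem _ _ hy)
      rw [hf_smul_right, Complex.conj_I] at h5
      refine Complex.ext (h4 y hy) ?_
      simp only [Complex.mul_re, Complex.neg_re, Complex.I_re, Complex.neg_im, Complex.I_im] at h5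
      simp only [Complex.zero_im]
      linarith)
  have hT : finrank ℂ (⨆ k : ℤ, Y.H (a + k, b + k) : Submodule ℂ Y.R) =
      hs Y a b (sm n) + (Y.h a b + hs Y a b (sp n)) := by
    rw [Y.total_all a b (sm n ∪ ({0} ∪ sp n)) ?_, Finset.sum_union, Finset.sum_union,
      Finset.sum_singleton, add_zero, add_zero]
    · rfl
    · rw [Finset.disjoint_left]
      intro k hk hk2
      rw [Finset.mem_singleton] at hk
      rw [mem_sp] at hk2
      omega
    · rw [Finset.disjoint_left]
      intro k hk hk2
      rw [mem_sm] at hk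
      rw [Finset.mem_union, Finset.mem_singleton, mem_sp] at hk2
      omega
    · intro k hk
      rw [Finset.mem_union, Finset.mem_union, Finset.mem_singleton, mem_sp, mem_sm] at hk
      omega
  rw [LinearEquiv.finrank_map_eq, finrank_sup' hM', finrank_sup' hN, hT] at h1
  rw [← hA, ← hA']
  omega

end Pool.Agent.R929.DH
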