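import Pool.Agent.R929.DH.Nef

/-!
# The index of the form of a nef class of defect at most two
-/

open scoped ComplexConjugate Topology
open Module

namespace Pool.Agent.R929.DH

open Pool.Agent.W539.DI

section sub

variable {R : Type*} [AddCommGroup R] [Module ℂ R] {β : R → R → ℝ}

theorem IsHerm.restrict (h : IsHerm β) (T : Submodule ℂ R) :
    IsHerm (fun x y : T => β x y) where
  add x y z := h.add x y z
  smul r x z := h.smul r x z
  symm x y := h.symm x y
  inv x y := h.inv x y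

theorem finrank_comap_le {T W : Submodule ℂ R} (h : W ≤ T) :
    finrank ℂ (Submodule.comap T.subtype W) = finrank ℂ W :=
  (Submodule.comapSubtypeEquivOfLe h).finrank_eq

variable [FiniteDimensional ℂ R]

theorem semi_sub (h : IsHerm β) (T W₁ W₂ K : Submodule ℂ R) (hW₁ : W₁ ≤ T) (hW₂ : W₂ ≤ T)
    (h₁ : ∀ x ∈ W₁, 0 ≤ β x x) (h₂ : ∀ x ∈ W₂, β x x ≤ 0)
    (hK : ∀ x ∈ W₂, (∀ y ∈ T, β x y = 0) → x ∈ K) :
    finrank ℂ W₁ + finrank ℂ W₂ ≤ finrank ℂ T + finrank ℂ K := by
  have h3 := (h.restrict T).semi (Submodule.comap T.subtype W₁) (Submodule.comap T.subtype W₂)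
    (Submodule.comap T.subtype K) (fun x hx => h₁ _ hx) (fun x hx => h₂ _ hx)
    (fun x hx hxy => hK _ hx fun y hy => hxy ⟨y, hy⟩)
  rw [finrank_comap_le hW₁, finrank_comap_le hW₂] at h3
  have h4 : finrank ℂ (Submodule.comap T.subtype K) ≤ finrank ℂ K := by
    have e : Submodule.comap T.subtype K = Submodule.comap T.subtype (T ⊓ K) := by
      ext x
      simp
    rw [e, finrank_comap_le (inf_le_left : T ⊓ K ≤ T)]
    exact Submodule.finrank_mono inf_le_right
  omega

theorem exists_max_sub (h : IsHerm β) (T : Submodule ℂ R) :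
    ∃ M M' : Submodule ℂ R, M ≤ T ∧ M' ≤ T ∧ (∀ x ∈ M, x ≠ 0 → β x x < 0) ∧
      (∀ x ∈ M', 0 ≤ β x x) ∧ finrank ℂ M + finrank ℂ M' = finrank ℂ T ∧
      (∀ x ∈ T, (∀ y ∈ T, β x y = 0) → x ∈ M') := by
  obtain ⟨M, M', h1, h2, h3, h4⟩ := (h.restrict T).exists_max
  refine ⟨M.map T.subtype, M'.map T.subtype, Submodule.map_subtype_le T M,
    Submodule.map_subtype_le T M', ?_, ?_, ?_, ?_⟩
  · rintro _ ⟨x, hx, rfl⟩ hx0
    exact h1 x hx fun h0 => hx0 (by rw [h0, map_zero])
  · rintro _ ⟨x, hx, rfl⟩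
    exact h2 x hx
  · rw [Submodule.finrank_map_subtype_eq, Submodule.finrank_map_subtype_eq]
    exact h3
  · intro x hx hxy
    exact ⟨⟨x, hx⟩, h4 ⟨x, hx⟩ fun y => hxy y y.2, rfl⟩

end sub

variable {n : ℕ} {X : KRing n} {L : X.R}

theorem sg_I (p q : ℤ) : (sg p q : ℂ) * Complex.I ^ (p + q) =
    Complex.I ^ (p - q) * (-1 : ℂ) ^ ((p + q) * (p + q - 1) / 2) := by
  have hI : Complex.I ^ (p + q) = Complex.I ^ (p - q) * (-1 : ℂ) ^ q := by
    have e : (p + q : ℤ) = (p - q) + 2 * q := by ring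
    rw [e, zpow_add₀ Complex.I_ne_zero, zpow_mul]
    congr 2
    rw [show (2 : ℤ) = ((2 : ℕ) : ℤ) from rfl, zpow_natCast, Complex.I_sq]
  rw [hI]
  unfold sg
  push_cast
  have h2 : (-1 : ℂ) ^ q * (-1 : ℂ) ^ q = 1 := by
    rw [← mul_zpow]; norm_num
  linear_combination (Complex.I ^ (p - q) * (-1 : ℂ) ^ ((p + q) * (p + q - 1) / 2)) * h2

/-- The vectors which are orthogonal to everything. -/
theorem pow_mul_eq_zero (hm : L ∈ X.H (1, 1)) (hb : X.bar L = L) {p q : ℤ} {k : ℕ}
    (hk : p + q + k = n) {z : X.R} (hz : z ∈ X.H (p, q))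
    (h : ∀ y ∈ X.H (p, q), bf X L k z y = 0) : L ^ k * z = 0 := by
  have h1 : ∀ y ∈ X.H (p, q), (hf X L k z y).re = 0 := by
    intro y hy
    have h2 := hf_conj (X := X) (w := L) (k := k) hm hb (a := p) (b := q) (m := 0)
      (by simpa using hz) (by simpa using hy)
    have h3 := h y hy
    unfold bf at h3
    rw [h2, Complex.conj_re] at h3
    linarith
  have h4 : ∀ y ∈ X.H (p, q), hf X L k z y = 0 := by
    intro y hy
    have h5 := h1 (Complex.I • y) (Submodule.smul_mem _ _ hy)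
    rw [hf_smul_right, Complex.conj_I] at h5
    refine Complex.ext (h1 y hy) ?_
    simp only [Complex.mul_re, Complex.neg_re, Complex.I_re, Complex.neg_im, Complex.I_im] at h5
    simp only [Complex.zero_im]
    linarith
  refine X.pd (p + k) (q + k) _ (X.pow_mul_mem hm k hz) fun u hu => ?_
  have e : ((n - (p + k), n - (q + k)) : ℤ × ℤ) = (q, p) := by ext <;> simp <;> omega
  rw [e] at hu
  have h6 := h4 (X.bar u) (X.bar_mem _ _ _ hu)
  rw [hf_hom hm hz, X.bar_bar] at h6
  rw [mul_assoc]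
  exact (mul_eq_zero.mp h6).resolve_left (zpow_ne_zero _ Complex.I_ne_zero)

/-- The operator of multiplication. -/
noncomputable abbrev ml (X : KRing n) (w : X.R) : X.R →ₗ[ℂ] X.R := LinearMap.mulLeft ℂ w

theorem neg_dim (hL : DefectTwo X L) : ∀ (r : ℕ) (p q : ℤ) (k : ℕ), p + q + k = n → p < r →
    ∃ M M' : Submodule ℂ X.R, M ≤ X.H (p, q) ∧ M' ≤ X.H (p, q) ∧
      (∀ x ∈ M, x ≠ 0 → sg p q * bf X L k x x < 0) ∧
      (∀ x ∈ M', 0 ≤ sg p q * bf X L k x x) ∧
      finrank ℂ M + finrank ℂ M' = X.h p q ∧ (finrank ℂ M' : ℤ) = X.A r p q ∧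
      (∀ x ∈ X.H (p, q), (∀ y ∈ X.H (p, q), sg p q * bf X L k x y = 0) → x ∈ M') := by
  intro r
  induction r with
  | zero =>
    intro p q k _ hp
    have hb : X.H (p, q) = ⊥ := X.van p q (Or.inl (by simpa using hp))
    refine ⟨⊥, ⊥, bot_le, bot_le, ?_, ?_, ?_, ?_, ?_⟩
    · intro x hx h0
      exact absurd ((Submodule.mem_bot ℂ).mp hx) h0
    · intro x hx
      rw [(Submodule.mem_bot ℂ).mp hx]
      exact le_of_eq ((isHerm (X := X) (w := L) (k := k) (sg p q)).zero_left 0).symm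
    · unfold KRing.h
      rw [hb]
      simp
    · simp [KRing.A]
    · intro x hx _
      rw [hb] at hx
      exact hx
  | succ r ih =>
    intro p q k hk hp
    have hH := isHerm (X := X) (w := L) (k := k) (sg p q)
    obtain ⟨M, M', hM, hM', neg, pos, hsum, hrad⟩ := exists_max_sub hH (X.H (p, q))
    obtain ⟨N, N', hN, hN', negN, posN, hsumN, hAN, hradN⟩ :=
      ih (p - 1) (q - 1) (k + 2) (by push_cast; omega) (by push_cast at hp; omega)
    have hk2 : (p - 1 : ℤ) + (q - 1) + (k : ℤ) + 2 = n := by omega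
    -- the classes killed by `L ^ (k + 1)`
    let P : Submodule ℂ X.R := X.H (p - 1, q - 1) ⊓ LinearMap.ker (ml X (L ^ (k + 1)))
    have hP : ∀ v ∈ P, v ∈ X.H (p - 1, q - 1) ∧ L ^ (k + 1) * v = 0 := fun v hv => ⟨hv.1, hv.2⟩
    have hPdual : ∀ v ∈ P, L ^ (k + 1) * X.dual v = 0 := by
      intro v hv
      rw [X.dual_of (hP v hv).1, mul_smul_comm, (hP v hv).2, smul_zero]
    have hPbar : ∀ v ∈ P, L ^ (k + 1) * X.bar v = 0 := by
      intro v hv
      rw [← bar_pow hL.real, (hP v hv).2, map_zero]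
    have hPN : P ≤ N' := by
      intro v hv
      refine hradN v (hP v hv).1 fun y _ => ?_
      have h1 : hf X L (k + 2) v y = 0 := by
        unfold hf
        rw [show k + 2 = (k + 1) + 1 from rfl, pow_succ, mul_assoc, ← mul_assoc (X.dual v),
          ← pow_central hL.mem, hPdual v hv, zero_mul, map_zero]
      have h2 : hf X L (k + 2) y v = 0 := by
        unfold hf
        rw [show k + 2 = (k + 1) + 1 from rfl, pow_succ', mul_assoc, hPbar v hv, mul_zero,
          mul_zero, map_zero]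
      unfold bf
      rw [h1, h2]
      simp
    obtain ⟨C, hC⟩ := Submodule.exists_isCompl P
    let W : Submodule ℂ X.R := N' ⊓ C
    have hPW : P ⊔ W = N' := by
      have : P ⊔ C ⊓ N' = (P ⊔ C) ⊓ N' := (sup_inf_assoc_of_le C hPN).symm
      show P ⊔ N' ⊓ C = N'
      rw [inf_comm, this, hC.sup_eq_top, top_inf_eq]
    have hPWd : P ⊓ W = ⊥ := by
      rw [eq_bot_iff]
      rintro x ⟨hx1, -, hx2⟩
      have : x ∈ P ⊓ C := ⟨hx1, hx2⟩
      rwa [hC.inf_eq_bot] at this
    have hdim : finrank ℂ P + finrank ℂ W = finrank ℂ N' := by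
      have h1 := Submodule.finrank_sup_add_finrank_inf_eq P W
      rw [hPW, hPWd, finrank_bot, add_zero] at h1
      exact h1.symm
    -- mixed terms
    have hmix1 : ∀ w : X.R, ∀ v ∈ P, hf X L k (L * w) (X.ω * v) = 0 := by
      intro w v hv
      rw [hf_succ_left hL.mem, hf_mul_right X.ω_mem X.ω_bar, hPbar v hv, mul_zero, mul_zero,
        map_zero, neg_zero]
    have hmix2 : ∀ w : X.R, ∀ v ∈ P, hf X L k (X.ω * v) (L * w) = 0 := by
      intro w v hv
      rw [hf_succ_right hL.mem hL.real, hf_mul_left X.ω_mem, ← mul_assoc X.ω,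
        X.central X.ω_mem (L ^ (k + 1)), mul_assoc, ← mul_assoc (X.dual v),
        ← pow_central hL.mem, hPdual v hv, zero_mul, map_zero, neg_zero]
    have hmix : ∀ w : X.R, ∀ v ∈ P, sg p q * bf X L k (L * w) (X.ω * v) = 0 := by
      intro w v hv
      unfold bf
      rw [hmix1 w v hv, hmix2 w v hv]
      simp
    have hωneg : ∀ v ∈ P, v ≠ 0 → sg p q * bf X L k (X.ω * v) (X.ω * v) < 0 := by
      intro v hv hv0
      obtain ⟨ρ, hρ, he⟩ := hL.rel (p - 1) (q - 1) k hk2 v (hP v hv).1 hv0 (hP v hv).2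
      have h1 : (sg p q : ℂ) * hf X L k (X.ω * v) (X.ω * v) = -(ρ : ℂ) := by
        rw [← he, ← sg_I, sg_pred, hf_mul_left X.ω_mem, X.bar_mul, X.ω_bar,
          X.dual_of (hP v hv).1, smul_mul_assoc, map_smul, smul_eq_mul]
        have e1 : v * (X.ω * (L ^ k * (X.ω * X.bar v))) = L ^ k * (X.ω ^ 2 * (v * X.bar v)) := by
          rw [← mul_assoc X.ω (L ^ k), X.central X.ω_mem (L ^ k), mul_assoc (L ^ k),
            ← mul_assoc v, ← pow_central hL.mem, mul_assoc (L ^ k), ← mul_assoc X.ω X.ω,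
            ← mul_assoc v, ← pow_two, ← pow_central X.ω_mem, mul_assoc]
        rw [e1]
        ring
      have h2 := congrArg Complex.re h1
      rw [Complex.re_ofReal_mul, Complex.neg_re, Complex.ofReal_re] at h2
      rw [bf_self]
      linarith
    have hLneg : ∀ w ∈ W, sg p q * bf X L k (L * w) (L * w) ≤ 0 := by
      intro w hw
      have h1 := posN w hw.1
      rw [sg_pred] at h1
      rw [bf_succ hL.mem hL.real]
      linarith
    have hLmem : ∀ w ∈ X.H (p - 1, q - 1), L * w ∈ X.H (p, q) := by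
      intro w hw
      have := X.mul_mem hL.mem hw
      have e : ((1 + (p - 1), 1 + (q - 1)) : ℤ × ℤ) = (p, q) := by ext <;> simp
      rwa [e] at this
    have hωmem : ∀ w ∈ X.H (p - 1, q - 1), X.ω * w ∈ X.H (p, q) := by
      intro w hw
      have := X.mul_mem X.ω_mem hw
      have e : ((1 + (p - 1), 1 + (q - 1)) : ℤ × ℤ) = (p, q) := by ext <;> simp
      rwa [e] at this
    have key : ∀ w ∈ W, ∀ v ∈ P, (∀ y ∈ X.H (p, q), sg p q * bf X L k (L * w + X.ω * v) y = 0) →
        w = 0 ∧ v = 0 := by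
      intro w hw v hv h
      have hv0 : v = 0 := by
        by_contra hv0
        have h1 := h _ (hωmem v (hP v hv).1)
        have h2 := hH.add (L * w) (X.ω * v) (X.ω * v)
        rw [h2, hmix w v hv, zero_add] at h1
        have h3 := hωneg v hv hv0
        linarith
      refine ⟨?_, hv0⟩
      rw [hv0, mul_zero, add_zero] at h
      have h1 : L ^ k * (L * w) = 0 := by
        refine pow_mul_eq_zero hL.mem hL.real hk (hLmem w (hN' hw.1)) fun y hy => ?_
        exact (mul_eq_zero.mp (h y hy)).resolve_left (sg_ne p q)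
      rw [← mul_assoc, ← pow_succ] at h1
      have h2 : w ∈ P ⊓ W := ⟨⟨hN' hw.1, h1⟩, hw⟩
      rw [hPWd, Submodule.mem_bot] at h2
      exact h2
    let S₁ : Submodule ℂ X.R := Submodule.map (ml X L) W
    let S₂ : Submodule ℂ X.R := Submodule.map (ml X X.ω) P
    have hzero : ∀ y : X.R, sg p q * bf X L k 0 y = 0 := fun y => hH.zero_left y
    have hd1 : finrank ℂ S₁ = finrank ℂ W := by
      refine finrank_map_of_inj _ _ fun w hw h0 => (key w hw 0 P.zero_mem fun y _ => ?_).1
      have : L * w = 0 := h0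
      rw [this, mul_zero, add_zero]
      exact hzero y
    have hd2 : finrank ℂ S₂ = finrank ℂ P := by
      refine finrank_map_of_inj _ _ fun v hv h0 => (key 0 W.zero_mem v hv fun y _ => ?_).2
      have : X.ω * v = 0 := h0
      rw [this, mul_zero, add_zero]
      exact hzero y
    have hd3 : S₁ ⊓ S₂ = ⊥ := by
      rw [eq_bot_iff]
      rintro _ ⟨⟨w, hw, rfl⟩, ⟨v, hv, hvw⟩⟩
      have hvw' : X.ω * v = L * w := hvw
      have h1 := (key w hw (-v) (P.neg_mem hv) fun y _ => by
        rw [mul_neg, hvw', add_neg_cancel]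
        exact hzero y).1
      rw [Submodule.mem_bot]
      show L * w = 0
      rw [h1, mul_zero]
    have hdS : finrank ℂ (S₁ ⊔ S₂ : Submodule ℂ X.R) = finrank ℂ N' := by
      have h1 := Submodule.finrank_sup_add_finrank_inf_eq S₁ S₂
      rw [hd3, finrank_bot, add_zero, hd1, hd2] at h1
      omega
    have hS : ∀ x ∈ S₁ ⊔ S₂, ∃ w ∈ W, ∃ v ∈ P, x = L * w + X.ω * v := by
      intro x hx
      rw [Submodule.mem_sup] at hx
      obtain ⟨_, ⟨w, hw, rfl⟩, _, ⟨v, hv, rfl⟩, rfl⟩ := hx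
      exact ⟨w, hw, v, hv, rfl⟩
    have hfin := semi_sub hH (X.H (p, q)) M' (S₁ ⊔ S₂) ⊥ hM'
      (by
        intro x hx
        obtain ⟨w, hw, v, hv, rfl⟩ := hS x hx
        exact Submodule.add_mem _ (hLmem w (hN' hw.1)) (hωmem v (hP v hv).1))
      pos
      (by
        intro x hx
        obtain ⟨w, hw, v, hv, rfl⟩ := hS x hx
        have h1 := hH.add (L * w) (X.ω * v) (L * w + X.ω * v)
        have h2 := hH.add_right (L * w) (L * w) (X.ω * v)
        have h3 := hH.add_right (X.ω * v) (L * w) (X.ω * v)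
        have h4 := hH.symm (X.ω * v) (L * w)
        rw [h1, h2, h3, h4, hmix w v hv]
        have h5 := hLneg w hw
        have h6 : sg p q * bf X L k (X.ω * v) (X.ω * v) ≤ 0 := by
          by_cases hv0 : v = 0
          · rw [hv0, mul_zero, hzero]
          · exact (hωneg v hv hv0).le
        linarith)
      (by
        intro x hx hxy
        obtain ⟨w, hw, v, hv, rfl⟩ := hS x hx
        obtain ⟨h1, h2⟩ := key w hw v hv hxy
        rw [h1, h2, mul_zero, mul_zero, add_zero]
        exact Submodule.zero_mem _)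
    rw [hdS, finrank_bot, add_zero] at hfin
    have hup := nef_bound hL hk hp M hM neg
    refine ⟨M, M', hM, hM', neg, pos, hsum, ?_, hrad⟩
    have hA : X.A (r + 1) p q = X.h p q - X.A r (p - 1) (q - 1) := rfl
    have hsum' : finrank ℂ M + finrank ℂ M' = X.h p q := hsum
    have hfin' : finrank ℂ M' + finrank ℂ N' ≤ X.h p q := hfin
    rw [hA] at hup ⊢
    rw [← hAN] at hup ⊢
    omega

end Pool.Agent.R929.DH
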