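import Pool.Agent.W539.DI.Cor
import Pool.Agent.R929.DH.Low

/-!
# The forms are derived invariants
-/

open scoped ComplexConjugate Topology
open Module

namespace Pool.Agent.R929.DH

open Pool.Agent.W539.DI

variable {n : ℕ}

theorem c_pow (X : KRing n) : X.c ^ (n + 1) = 0 := by
  have h1 := X.pow_mem X.c_mem (n + 1)
  rw [X.van_top (by left; push_cast; omega), Submodule.mem_bot] at h1
  exact h1

theorem expc_central (X : KRing n) (x : X.R) : X.expc * x = x * X.expc := by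
  unfold KRing.expc
  rw [Finset.sum_mul, Finset.mul_sum]
  refine Finset.sum_congr rfl fun m _ => ?_
  rw [smul_mul_assoc, mul_smul_comm, pow_central X.c_mem]

theorem isUnit_expc (X : KRing n) : IsUnit X.expc := by
  unfold KRing.expc
  rw [Finset.sum_range_succ']
  have e1 : ((1 : ℂ) / (2 ^ 0 * ((Nat.factorial 0 : ℕ) : ℂ))) • X.c ^ 0 = 1 := by simp
  rw [e1]
  have e2 : (∑ m ∈ Finset.range n, ((1 : ℂ) / (2 ^ (m + 1) * ((m + 1).factorial : ℂ))) •
      X.c ^ (m + 1)) = X.c * ∑ m ∈ Finset.range n,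
        ((1 : ℂ) / (2 ^ (m + 1) * ((m + 1).factorial : ℂ))) • X.c ^ m := by
    rw [Finset.mul_sum]
    refine Finset.sum_congr rfl fun m _ => ?_
    rw [mul_smul_comm, ← pow_succ']
  rw [e2]
  refine IsNilpotent.isUnit_add_one ?_
  refine ⟨n + 1, ?_⟩
  rw [Commute.mul_pow (X.central X.c_mem _), c_pow, zero_mul]

variable {X Y : KRing n} {Φ : FM X Y}

theorem Intertwines.pow {u : X.R} {v : Y.R} (h : Intertwines Φ u v) (k : ℕ) (x : X.R) :
    Φ.φ (u ^ k * x) = v ^ k * Φ.φ x := by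
  induction k generalizing x with
  | zero => simp
  | succ k ih => rw [pow_succ, mul_assoc, ih, h x, pow_succ, mul_assoc]

theorem expc_comm (hc : Intertwines Φ X.c Y.c) (x : X.R) :
    Φ.φ (X.expc * x) = Y.expc * Φ.φ x := by
  unfold KRing.expc
  rw [Finset.sum_mul, Finset.sum_mul, map_sum]
  refine Finset.sum_congr rfl fun m _ => ?_
  rw [smul_mul_assoc, smul_mul_assoc, map_smul, hc.pow]

theorem tr_iso (hc : Intertwines Φ X.c Y.c) (x z : X.R) :
    Y.tr (Y.dual (Φ.φ x) * Φ.φ z) = X.tr (X.dual x * z) := by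
  obtain ⟨u, hu⟩ := isUnit_expc X
  have e1 : X.expc * (((u⁻¹ : X.Rˣ) : X.R) * z) = z := by
    rw [← hu, ← mul_assoc, Units.mul_inv, one_mul]
  have h1 := Φ.isom x (((u⁻¹ : X.Rˣ) : X.R) * z)
  unfold KRing.mukai at h1
  rw [← mul_assoc Y.expc, expc_central Y, mul_assoc, ← expc_comm hc, e1,
    ← mul_assoc X.expc, expc_central X, mul_assoc, e1] at h1
  exact h1

theorem hf_iso (hc : Intertwines Φ X.c Y.c) {u : X.R} {v : Y.R} (h : Intertwines Φ u v) (k : ℕ)
    (x y : X.R) : hf Y v k (Φ.φ x) (Φ.φ y) = hf X u k x y := by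
  unfold hf
  rw [← Φ.real, ← h.pow, tr_iso hc]

theorem bf_iso (hc : Intertwines Φ X.c Y.c) {u : X.R} {v : Y.R} (h : Intertwines Φ u v) (k : ℕ)
    (x y : X.R) : bf Y v k (Φ.φ x) (Φ.φ y) = bf X u k x y := by
  unfold bf
  rw [hf_iso hc h, hf_iso hc h]

end Pool.Agent.R929.DH
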