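import Pool.Agent.R929.DH.Ineq

/-!
# The Hodge numbers
-/

open scoped ComplexConjugate Topology
open Module

namespace Pool.Agent.R929.DH

open Pool.Agent.W539.DI

variable {n : ℕ} {X Y : KRing n}

/-- The inverse transform. -/
noncomputable def symm (Φ : FM X Y) : FM Y X where
  φ := Φ.φ.symm
  real y := by
    apply Φ.φ.injective
    rw [LinearEquiv.apply_symm_apply, Φ.real, LinearEquiv.apply_symm_apply]
  hodge p q := by
    rw [← Φ.hodge p q, ← Submodule.map_comp]
    have e : ((Φ.φ.symm : Y.R →ₗ[ℂ] X.R) ∘ₗ (Φ.φ : X.R →ₗ[ℂ] Y.R)) = LinearMap.id := by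
      ext x
      simp
    rw [e, Submodule.map_id]
  isom x y := by
    rw [← Φ.isom, LinearEquiv.apply_symm_apply, LinearEquiv.apply_symm_apply]

theorem Intertwines.symm {Φ : FM X Y} {u : X.R} {v : Y.R} (h : Intertwines Φ u v) :
    Intertwines (symm Φ) v u := by
  intro y
  show Φ.φ.symm (v * y) = u * Φ.φ.symm y
  apply Φ.φ.injective
  rw [LinearEquiv.apply_symm_apply, h, LinearEquiv.apply_symm_apply]

variable {Φ : FM X Y} {L : X.R} {L' : Y.R}

theorem basic_eq (hX : DefectTwo X L) (hY : DefectTwo Y L') (hc : Intertwines Φ X.c Y.c)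
    (hΦ : Intertwines Φ L L') {a b : ℤ} {κ : ℕ} (hab : a + b + κ = n) (ha : 0 ≤ a) (hb : 0 ≤ b)
    {r : ℕ} (hr : a < r) :
    (hs X a b (sp n) : ℤ) + X.A r a b = hs Y a b (sp n) + Y.A r a b :=
  le_antisymm (basic hX hY hc hΦ hab ha hb hr)
    (basic (Φ := symm Φ) hY hX hc.symm hΦ.symm hab ha hb hr)

theorem total_eq (Φ : FM X Y) {a b : ℤ} {κ : ℕ} (hab : a + b + κ = n) (ha : 0 ≤ a)
    (hb : 0 ≤ b) :
    hs X a b (sm n) + (X.h a b + hs X a b (sp n)) =
      hs Y a b (sm n) + (Y.h a b + hs Y a b (sp n)) := by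
  classical
  have hT : ∀ Z : KRing n, ∑ k ∈ sm n ∪ ({0} ∪ sp n), Z.h (a + k) (b + k) =
      hs Z a b (sm n) + (Z.h a b + hs Z a b (sp n)) := by
    intro Z
    rw [Finset.sum_union, Finset.sum_union, Finset.sum_singleton, add_zero, add_zero]
    · rfl
    · rw [Finset.disjoint_left]
      intro k hk hk2
      rw [Finset.mem_singleton] at hk
      rw [mem_sp] at hk2
      omega
    · rw [Finset.disjoint_left]
      intro k hk hk2
      rw [mem_sm] at hk
      rw [Finset.mem_union, Finset.mem_singleton, mem_sp] at hk2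
      omega
  rw [← hT X, ← hT Y]
  refine Φ.total_all a b _ ?_
  intro k hk
  rw [Finset.mem_union, Finset.mem_union, Finset.mem_singleton, mem_sp, mem_sm] at hk
  omega

theorem A_congr : ∀ (r : ℕ) (p q : ℤ), (∀ i : ℕ, X.h (p - i) (q - i) = Y.h (p - i) (q - i)) →
    X.A r p q = Y.A r p q := by
  intro r
  induction r with
  | zero => intro p q _; rfl
  | succ r ih =>
    intro p q h
    show (X.h p q : ℤ) - X.A r (p - 1) (q - 1) = (Y.h p q : ℤ) - Y.A r (p - 1) (q - 1)
    have h0 := h 0
    simp only [Nat.cast_zero, sub_zero] at h0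
    rw [h0, ih (p - 1) (q - 1) fun i => by
      have := h (i + 1)
      push_cast at this
      rw [show p - 1 - i = p - (i + 1) by ring, show q - 1 - i = q - (i + 1) by ring]
      exact this]

theorem hs_sm (Z : KRing n) (a b : ℤ) (N : ℕ) :
    hs Z a b (sm N) = ∑ j ∈ Finset.range N, Z.h (a - (j + 1)) (b - (j + 1)) := by
  unfold hs
  rw [sum_sm]
  refine Finset.sum_congr rfl fun j _ => ?_
  rw [sub_eq_add_neg, sub_eq_add_neg]

theorem hs_sp (Z : KRing n) (a b : ℤ) (N : ℕ) :
    hs Z a b (sp N) = ∑ j ∈ Finset.range N, Z.h (a + (j + 1)) (b + (j + 1)) := by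
  unfold hs
  rw [sum_sp]

theorem lower (hX : DefectTwo X L) (hY : DefectTwo Y L') (hc : Intertwines Φ X.c Y.c)
    (hΦ : Intertwines Φ L L') : ∀ (N : ℕ) (p q : ℤ), p < N → p + q + 2 ≤ n →
    X.h p q = Y.h p q := by
  intro N
  induction N with
  | zero =>
    intro p q hp _
    rw [X.h_neg (Or.inl (by simpa using hp)), Y.h_neg (Or.inl (by simpa using hp))]
  | succ N ih =>
    intro p q hp hpq
    by_cases hneg : p < 0 ∨ q < 0
    · rw [X.h_neg hneg, Y.h_neg hneg]
    · push Not at hneg
      obtain ⟨hp0, hq0⟩ := hneg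
      obtain ⟨κ, hκ⟩ := Int.eq_ofNat_of_zero_le (show 0 ≤ (n : ℤ) - p - q - 2 by omega)
      have hab : (p + 1) + (q + 1) + (κ : ℤ) = n := by omega
      have h1 := basic_eq hX hY hc hΦ hab (by omega) (by omega) (r := N + 3)
        (by push_cast at hp ⊢; omega)
      have h2 := total_eq Φ hab (by omega) (by omega)
      have hlow : ∀ i : ℕ, X.h (p - 1 - i) (q - 1 - i) = Y.h (p - 1 - i) (q - 1 - i) := fun i =>
        ih _ _ (by push_cast at hp; omega) (by omega)
      have hA : ∀ Z : KRing n, Z.A (N + 3) (p + 1) (q + 1) =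
          Z.h (p + 1) (q + 1) - (Z.h p q - Z.A (N + 1) (p - 1) (q - 1)) := by
        intro Z
        show (Z.h (p + 1) (q + 1) : ℤ) - ((Z.h (p + 1 - 1) (q + 1 - 1) : ℤ) -
          Z.A (N + 1) (p + 1 - 1 - 1) (q + 1 - 1 - 1)) = _
        rw [add_sub_cancel_right, add_sub_cancel_right]
      have hA2 : X.A (N + 1) (p - 1) (q - 1) = Y.A (N + 1) (p - 1) (q - 1) :=
        A_congr _ _ _ hlow
      obtain ⟨n', hn'⟩ : ∃ n', n = n' + 1 := ⟨n - 1, by omega⟩
      have hsm : ∀ Z : KRing n, hs Z (p + 1) (q + 1) (sm n) =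
          ∑ j ∈ Finset.range n', Z.h (p - 1 - j) (q - 1 - j) + Z.h p q := by
        intro Z
        rw [hs_sm, show Finset.range n = Finset.range (n' + 1) by rw [hn'],
          Finset.sum_range_succ']
        congr 1
        · refine Finset.sum_congr rfl fun j _ => ?_
          congr 1 <;> push_cast <;> ring
        · congr 1 <;> push_cast <;> ring
      have hsum : ∑ j ∈ Finset.range n', X.h (p - 1 - j) (q - 1 - j) =
          ∑ j ∈ Finset.range n', Y.h (p - 1 - j) (q - 1 - j) :=
        Finset.sum_congr rfl fun j _ => hlow j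
      rw [hA X, hA Y, hA2] at h1
      rw [hsm X, hsm Y, hsum] at h2
      omega

/-- **Main theorem.** -/
theorem main (hX : DefectTwo X L) (hY : DefectTwo Y L') (hc : Intertwines Φ X.c Y.c)
    (hΦ : Intertwines Φ L L') (p q : ℤ) : X.h p q = Y.h p q := by
  have hlow : ∀ p q : ℤ, p + q + 2 ≤ n → X.h p q = Y.h p q := fun p q h =>
    lower hX hY hc hΦ (p.toNat + 1) p q (by
      push_cast
      have := Int.self_le_toNat p
      omega) h
  have hmid : ∀ p q : ℤ, p + q ≤ n → X.h p q = Y.h p q := by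
    intro p q hpq
    by_cases h2 : p + q + 2 ≤ n
    · exact hlow p q h2
    by_cases hneg : p < 0 ∨ q < 0
    · rw [X.h_neg hneg, Y.h_neg hneg]
    push Not at hneg
    obtain ⟨hp0, hq0⟩ := hneg
    have hAll : ∀ i : ℕ, X.h (p - 1 - i) (q - 1 - i) = Y.h (p - 1 - i) (q - 1 - i) := fun i =>
      hlow _ _ (by omega)
    have hA : ∀ Z : KRing n, Z.A (p.toNat + 2) p q =
        Z.h p q - Z.A (p.toNat + 1) (p - 1) (q - 1) := fun Z => rfl
    have hA2 : X.A (p.toNat + 1) (p - 1) (q - 1) = Y.A (p.toNat + 1) (p - 1) (q - 1) :=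
      A_congr _ _ _ hAll
    have hr : p < ((p.toNat + 2 : ℕ) : ℤ) := by
      push_cast
      have := Int.self_le_toNat p
      omega
    by_cases h0 : p + q = n
    · have h1 := basic_eq hX hY hc hΦ (κ := 0) (a := p) (b := q) (by simpa using h0) hp0 hq0 hr
      have hsp : ∀ Z : KRing n, hs Z p q (sp n) =
          ∑ j ∈ Finset.range n, Z.h (p - 1 - j) (q - 1 - j) := by
        intro Z
        rw [hs_sp]
        refine Finset.sum_congr rfl fun j _ => ?_
        have := Z.h_symm (p := p - 1 - j) (q := q - 1 - j) (2 * (j + 1)) (by push_cast; omega)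
        rw [this]
        congr 1 <;> push_cast <;> ring
      rw [hsp X, hsp Y, hA X, hA Y, hA2, Finset.sum_congr rfl fun j _ => hAll j] at h1
      omega
    · have h1' : p + q + 1 = n := by omega
      have h1 := basic_eq hX hY hc hΦ (κ := 1) (a := p) (b := q) (by push_cast; omega) hp0 hq0 hr
      obtain ⟨n', hn'⟩ : ∃ n', n = n' + 1 := ⟨n - 1, by omega⟩
      have hsp : ∀ Z : KRing n, hs Z p q (sp n) =
          ∑ j ∈ Finset.range n', Z.h (p - 1 - j) (q - 1 - j) + Z.h p q := by
        intro Z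
        rw [hs_sp, show Finset.range n = Finset.range (n' + 1) by rw [hn'],
          Finset.sum_range_succ']
        congr 1
        · refine Finset.sum_congr rfl fun j _ => ?_
          have := Z.h_symm (p := p - 1 - j) (q := q - 1 - j) (2 * j + 3) (by push_cast; omega)
          rw [this]
          congr 1 <;> push_cast <;> ring
        · have := Z.h_symm (p := p) (q := q) 1 (by push_cast; omega)
          rw [this]
          congr 1 <;> push_cast <;> ring
      rw [hsp X, hsp Y, hA X, hA Y, hA2, Finset.sum_congr rfl fun j _ => hAll j] at h1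
      omega
  by_cases h : p + q ≤ n
  · exact hmid p q h
  · obtain ⟨j, hj⟩ := Int.eq_ofNat_of_zero_le (show 0 ≤ p + q - n by omega)
    have h1 : ∀ Z : KRing n, Z.h p q = Z.h (n - q) (n - p) := by
      intro Z
      have := Z.h_symm (p := n - q) (q := n - p) j (by omega)
      rw [this]
      congr 1 <;> omega
    rw [h1 X, h1 Y]
    exact hmid _ _ (by omega)

end Pool.Agent.R929.DH
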