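import Pool.Agent.R929.DH.Herm

/-!
# The index of the form of a nef class
-/

open scoped ComplexConjugate Topology
open Module

namespace Pool.Agent.R929.DH

open Pool.Agent.W539.DI

variable {n : ℕ}

/-- The sign with which the hermitian form is positive on primitive classes. -/
noncomputable def sg (p q : ℤ) : ℝ := (-1 : ℝ) ^ q * (-1 : ℝ) ^ ((p + q) * (p + q - 1) / 2)

theorem sg_sq (p q : ℤ) : sg p q * sg p q = 1 := by
  unfold sg
  have h : ∀ m : ℤ, (-1 : ℝ) ^ m * (-1 : ℝ) ^ m = 1 := fun m => by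
    rw [← mul_zpow]; norm_num
  calc _ = ((-1 : ℝ) ^ q * (-1 : ℝ) ^ q) * ((-1 : ℝ) ^ ((p + q) * (p + q - 1) / 2) *
      (-1 : ℝ) ^ ((p + q) * (p + q - 1) / 2)) := by ring
    _ = 1 := by rw [h, h, one_mul]

theorem sg_ne (p q : ℤ) : sg p q ≠ 0 := fun h => by
  have := sg_sq p q
  rw [h] at this
  norm_num at this

theorem sign_rec_real (s : ℤ) :
    (-1 : ℝ) ^ (s * (s - 1) / 2) = -(-1 : ℝ) ^ ((s - 2) * (s - 2 - 1) / 2) := by
  have h := sign_rec s
  have h2 : (((-1 : ℝ) ^ (s * (s - 1) / 2) : ℝ) : ℂ) =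
      ((-(-1 : ℝ) ^ ((s - 2) * (s - 2 - 1) / 2) : ℝ) : ℂ) := by
    push_cast
    exact h
  exact_mod_cast h2

theorem sg_pred (p q : ℤ) : sg (p - 1) (q - 1) = sg p q := by
  unfold sg
  rw [sign_rec_real (p + q), show p - 1 + (q - 1) = p + q - 2 by ring,
    zpow_sub₀ (by norm_num : (-1 : ℝ) ≠ 0), zpow_one, div_neg, div_one]
  ring

variable {X : KRing n}

theorem hf_sign {w : X.R} (hw : w ∈ X.H (1, 1)) {k : ℕ} {p q : ℤ} {x : X.R}
    (hx : x ∈ X.H (p, q)) (y : X.R) :
    Complex.I ^ (p - q) * (-1 : ℂ) ^ ((p + q) * (p + q - 1) / 2) * X.tr (w ^ k * (x * X.bar y)) =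
      (sg p q : ℂ) * hf X w k x y := by
  rw [hf_hom hw hx]
  have hI : Complex.I ^ (p + q) = Complex.I ^ (p - q) * (-1 : ℂ) ^ q := by
    have e : (p + q : ℤ) = (p - q) + 2 * q := by ring
    rw [e, zpow_add₀ Complex.I_ne_zero, zpow_mul]
    congr 2
    rw [show (2 : ℤ) = ((2 : ℕ) : ℤ) from rfl, zpow_natCast, Complex.I_sq]
  rw [hI]
  unfold sg
  push_cast
  have h2 : (-1 : ℂ) ^ q * (-1 : ℂ) ^ q = 1 := by
    rw [← mul_zpow]; norm_num
  linear_combination (-(Complex.I ^ (p - q) * (-1 : ℂ) ^ ((p + q) * (p + q - 1) / 2) *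
    X.tr (w ^ k * (x * X.bar y)))) * h2

theorem bf_self {w : X.R} {k : ℕ} (x : X.R) : bf X w k x x = 2 * (hf X w k x x).re := by
  unfold bf
  ring

/-- The same ring with another Kähler class. -/
def swap (X : KRing n) (w : X.R) (h : IsKahler X w) : KRing n where
  R := X.R
  H := X.H
  van := X.van
  conn := X.conn
  comm := X.comm
  bar := X.bar
  bar_bar := X.bar_bar
  bar_mul := X.bar_mul
  bar_mem := X.bar_mem
  tr := X.tr
  tr_van := X.tr_van
  tr_bar := X.tr_bar
  pd := X.pd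
  ω := w
  ω_mem := h.mem
  ω_bar := h.real
  hl_inj := h.hl_inj
  hl_surj := h.hl_surj
  hr := h.hr
  c := X.c
  c_mem := X.c_mem
  c_bar := X.c_bar

theorem swap_A (w : X.R) (h : IsKahler X w) (r : ℕ) : ∀ p q : ℤ,
    (swap X w h).A r p q = X.A r p q := by
  induction r with
  | zero => intro p q; rfl
  | succ r ih =>
    intro p q
    show ((swap X w h).h p q : ℤ) - (swap X w h).A r (p - 1) (q - 1) =
      (X.h p q : ℤ) - X.A r (p - 1) (q - 1)
    rw [ih]
    rfl

/-- A Kähler class: the positive part. -/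
theorem kahler_pos {w : X.R} (h : IsKahler X w) {r : ℕ} {p q : ℤ} {k : ℕ}
    (hk : p + q + k = n) (hr : p < r) :
    ∃ M : Submodule ℂ X.R, M ≤ X.H (p, q) ∧
      (∀ x ∈ M, x ≠ 0 → 0 < sg p q * bf X w k x x) ∧ (finrank ℂ M : ℤ) = X.A r p q := by
  obtain ⟨M₁, M₂, h1, -, h2, -, -, h3⟩ := (swap X w h).definite r p q k hk hr
  refine ⟨M₁, h1, fun x hx hx0 => ?_, ?_⟩
  · have h4 := h2 x hx hx0
    have h5 : (swap X w h).S p q k x x = (sg p q : ℂ) * hf X w k x x :=
      hf_sign h.mem (h1 hx) x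
    rw [h5, Complex.re_ofReal_mul] at h4
    rw [bf_self]
    linarith
  · rw [← swap_A w h r p q]
    exact h3

/-- The forms of `L + t ω` depend continuously on `t`. -/
theorem continuous_tr (L : X.R) (k : ℕ) : ∀ u v : X.R,
    Continuous (fun t : ℝ => X.tr (u * ((L + (t : ℂ) • X.ω) ^ k * v))) := by
  induction k with
  | zero =>
    intro u v
    simpa using continuous_const
  | succ k ih =>
    intro u v
    have e : ∀ t : ℝ, X.tr (u * ((L + (t : ℂ) • X.ω) ^ (k + 1) * v)) =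
        X.tr (u * ((L + (t : ℂ) • X.ω) ^ k * (L * v))) +
          (t : ℂ) * X.tr (u * ((L + (t : ℂ) • X.ω) ^ k * (X.ω * v))) := by
      intro t
      rw [pow_succ, mul_assoc, add_mul, smul_mul_assoc, mul_add, mul_add, map_add, mul_smul_comm,
        mul_smul_comm, map_smul, smul_eq_mul]
    simp only [e]
    exact (ih u (L * v)).add (Complex.continuous_ofReal.mul (ih u (X.ω * v)))

/-- If the form of `L` is negative definite on a subspace then so are the forms of the classes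
`L + t ω` for small `t`. -/
theorem nef_limit (L : X.R) (S : Submodule ℂ X.R) (e : ℝ) (k : ℕ)
    (hS : ∀ x ∈ S, x ≠ 0 → e * bf X L k x x < 0) :
    ∃ t : ℝ, 0 < t ∧ ∀ x ∈ S, x ≠ 0 → e * bf X (L + (t : ℂ) • X.ω) k x x < 0 := by
  let b := Module.finBasis ℂ S
  let φ : (Fin (finrank ℂ S) → ℂ) ≃ₗ[ℂ] S := b.equivFun.symm
  have hφ : ∀ z, ((φ z : S) : X.R) = ∑ i, z i • ((b i : S) : X.R) := by
    intro z
    have h1 : φ z = ∑ i, z i • b i := b.equivFun_symm_apply z
    rw [h1]
    push_cast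
    rfl
  let G : ℝ × (Fin (finrank ℂ S) → ℂ) → ℝ := fun p =>
    e * bf X (L + ((p.1 : ℝ) : ℂ) • X.ω) k (φ p.2 : S) (φ p.2 : S)
  have hsum : ∀ (w : X.R) (z : Fin (finrank ℂ S) → ℂ),
      hf X w k (φ z : S) (φ z : S) = ∑ i, ∑ j, z i * (conj (z j) * hf X w k (b i : S) (b j : S)) := by
    intro w z
    have h1 : ∀ (s : Finset (Fin (finrank ℂ S))) (y : X.R),
        hf X w k (∑ i ∈ s, z i • ((b i : S) : X.R)) y = ∑ i ∈ s, z i * hf X w k (b i : S) y := by
      intro s y
      induction s using Finset.cons_induction with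
      | empty =>
        have := hf_smul_left (X := X) (w := w) (k := k) 0 0 y
        simpa using this
      | cons a s ha ih => rw [Finset.sum_cons, Finset.sum_cons, hf_add_left, hf_smul_left, ih]
    have h2 : ∀ (s : Finset (Fin (finrank ℂ S))) (y : X.R),
        hf X w k y (∑ i ∈ s, z i • ((b i : S) : X.R)) =
          ∑ i ∈ s, conj (z i) * hf X w k y (b i : S) := by
      intro s y
      induction s using Finset.cons_induction with
      | empty =>
        have := hf_smul_right (X := X) (w := w) (k := k) 0 y 0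
        simpa using this
      | cons a s ha ih => rw [Finset.sum_cons, Finset.sum_cons, hf_add_right, hf_smul_right, ih]
    rw [hφ, h1]
    refine Finset.sum_congr rfl fun i _ => ?_
    rw [h2, Finset.mul_sum]
  have hG : Continuous G := by
    refine continuous_const.mul ?_
    have h1 : ∀ i j, Continuous (fun p : ℝ × (Fin (finrank ℂ S) → ℂ) =>
        hf X (L + ((p.1 : ℝ) : ℂ) • X.ω) k (b i : S) (b j : S)) := fun i j =>
      (continuous_tr L k (X.dual (b i : S)) (X.bar (b j : S))).comp continuous_fst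
    have h2 : Continuous (fun p : ℝ × (Fin (finrank ℂ S) → ℂ) =>
        hf X (L + ((p.1 : ℝ) : ℂ) • X.ω) k (φ p.2 : S) (φ p.2 : S)) := by
      simp only [hsum]
      refine continuous_finsetSum _ fun i _ => continuous_finsetSum _ fun j _ => ?_
      refine Continuous.mul ?_ (Continuous.mul ?_ (h1 i j))
      · exact (continuous_apply i).comp continuous_snd
      · exact Complex.continuous_conj.comp ((continuous_apply j).comp continuous_snd)
    exact (Complex.continuous_re.comp h2).add (Complex.continuous_re.comp h2)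
  have hK : IsCompact (Metric.sphere (0 : Fin (finrank ℂ S) → ℂ) 1) := isCompact_sphere 0 1
  have hev := hK.eventually_forall_of_forall_eventually (x₀ := (0 : ℝ))
    (P := fun t z => G (t, z) < 0) (fun z hz => by
      have h1 : G (0, z) < 0 := by
        have hz0 : ((φ z : S) : X.R) ≠ 0 := by
          intro h0
          have h2 : φ z = 0 := Subtype.ext h0
          have h3 : z = 0 := by simpa using h2
          rw [h3, mem_sphere_zero_iff_norm, norm_zero] at hz
          norm_num at hz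
        have := hS _ (φ z).2 hz0
        simpa [G] using this
      exact (hG.tendsto (0, z)).eventually_lt_const h1)
  have hev2 : ∀ᶠ t in 𝓝[>] (0 : ℝ), ∀ z ∈ Metric.sphere (0 : Fin (finrank ℂ S) → ℂ) 1,
      G (t, z) < 0 := hev.filter_mono nhdsWithin_le_nhds
  obtain ⟨t, ht, ht0⟩ := (hev2.and self_mem_nhdsWithin).exists
  refine ⟨t, ht0, fun x hx hx0 => ?_⟩
  set z := φ.symm ⟨x, hx⟩ with hz
  have hxz : ((φ z : S) : X.R) = x := by rw [hz, LinearEquiv.apply_symm_apply]
  have hz0 : z ≠ 0 := by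
    intro h0
    rw [h0, map_zero] at hxz
    exact hx0 hxz.symm
  have hn : 0 < ‖z‖ := norm_pos_iff.mpr hz0
  have h1 := ht (((‖z‖⁻¹ : ℝ) : ℂ) • z) (by
    rw [mem_sphere_zero_iff_norm, norm_smul, Complex.norm_real, norm_inv, norm_norm,
      inv_mul_cancel₀ hn.ne'])
  have h2 : G (t, ((‖z‖⁻¹ : ℝ) : ℂ) • z) = (‖z‖⁻¹) ^ 2 * (e * bf X (L + (t : ℂ) • X.ω) k x x) := by
    show e * bf X (L + ((t : ℝ) : ℂ) • X.ω) k (φ (((‖z‖⁻¹ : ℝ) : ℂ) • z) : S) _ = _
    rw [map_smul]
    have h3 := (isHerm (X := X) (w := L + ((t : ℝ) : ℂ) • X.ω) (k := k) e).smul_self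
      ((‖z‖⁻¹ : ℝ) : ℂ) x
    rw [Complex.normSq_ofReal] at h3
    rw [show ((((‖z‖⁻¹ : ℝ) : ℂ) • φ z : S) : X.R) = ((‖z‖⁻¹ : ℝ) : ℂ) • x by
      rw [Submodule.coe_smul, hxz]]
    rw [h3]
    ring
  have h4 : G (t, ((‖z‖⁻¹ : ℝ) : ℂ) • z) < 0 := h1
  rw [h2] at h4
  have h5 : 0 < (‖z‖⁻¹) ^ 2 := by positivity
  by_contra hcon
  push Not at hcon
  have := mul_nonneg h5.le hcon
  linarith

/-- **Upper bound for the negative index of a nef class.** -/
theorem nef_bound {L : X.R} (hL : DefectTwo X L) {r : ℕ} {p q : ℤ} {k : ℕ}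
    (hk : p + q + k = n) (hr : p < r) (S : Submodule ℂ X.R) (hSp : S ≤ X.H (p, q))
    (hS : ∀ x ∈ S, x ≠ 0 → sg p q * bf X L k x x < 0) :
    (finrank ℂ S : ℤ) + X.A r p q ≤ X.h p q := by
  obtain ⟨t, ht, h1⟩ := nef_limit L S (sg p q) k hS
  obtain ⟨M, hM, h2, h3⟩ := kahler_pos (hL.nef t ht) hk hr
  have hd : S ⊓ M = ⊥ := by
    rw [eq_bot_iff]
    rintro x ⟨hx1, hx2⟩
    rw [Submodule.mem_bot]
    by_contra hx0
    have := h1 x hx1 hx0
    have := h2 x hx2 hx0
    linarith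
  have h4 := Submodule.finrank_sup_add_finrank_inf_eq S M
  rw [hd, finrank_bot, add_zero] at h4
  have h5 := Submodule.finrank_mono (sup_le hSp hM)
  rw [← h3]
  unfold KRing.h
  exact_mod_cast (h4 ▸ h5 : finrank ℂ S + finrank ℂ M ≤ finrank ℂ (X.H (p, q)))

end Pool.Agent.R929.DH
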